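import Pool.Agent.V5helper51.ML.Stm

/-! # Project ML, job SEPL: different tuples have a well separated power sum -/

set_option autoImplicit false

namespace Pool.Agent.V5helper53.ML

open Finset MeasureTheory
open Pool.Agent.V5helper51.ML
open Pool.Agent.V5helper51.MT (a cube blk S_WC)

theorem t_SEPL (hWC : S_WC) : S_SEPL := by
  intro k l hl hlk
  obtain ⟨C, hC, hW⟩ := hWC (k - l) l 0 hl
  have hl0 : (0 : ℝ) < l := by exact_mod_cast hl
  refine ⟨1 / (C * l), by positivity, fun P hP x hx y hy hxy => ?_⟩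
  by_contra hcon
  push Not at hcon
  obtain ⟨i, hi⟩ := Function.ne_iff.1 hxy
  have hP' : (1 : ℝ) ≤ P := by exact_mod_cast hP
  have hblk : ∀ z ∈ boxl l P, ∀ i : Fin l,
      2 * (((0 : ℕ) : ℝ) + ((i : ℕ) : ℝ) + 1) * (P : ℝ) ≤ (z i : ℝ) ∧
        (z i : ℝ) ≤ (2 * (((0 : ℕ) : ℝ) + ((i : ℕ) : ℝ)) + 3) * P := by
    intro z hz i
    have h := Fintype.mem_piFinset.1 hz i
    unfold blk at h
    rw [Finset.mem_Icc] at h
    constructor
    · have h1 : ((2 * ((i : ℕ) + 1) * P : ℕ) : ℝ) ≤ z i := by exact_mod_cast h.1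
      push_cast at h1 ⊢
      linarith
    · have h1 : (z i : ℝ) ≤ (((2 * (i : ℕ) + 3) * P : ℕ) : ℝ) := by exact_mod_cast h.2
      push_cast at h1 ⊢
      linarith
  have h1 := hW P (by linarith) (fun i => (x i : ℝ)) (fun i => (y i : ℝ)) (hblk x hx) (hblk y hy) i
  have h2 : (1 : ℝ) ≤ |(x i : ℝ) - y i| := by
    have h3 : (1 : ℤ) ≤ |(x i : ℤ) - y i| := Int.one_le_abs (sub_ne_zero.2 (by exact_mod_cast hi))
    exact_mod_cast h3
  have hkl : k - l + l = k := by omega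
  rw [hkl] at h1
  have h3 : ∑ j ∈ Icc (k - l + 1) k, |∑ i, ((x i : ℝ) ^ j - (y i : ℝ) ^ j)| / (P : ℝ) ^ (j - 1) <
      ∑ j ∈ Icc (k - l + 1) k, 1 / (C * l) := by
    apply Finset.sum_lt_sum_of_nonempty
    · exact ⟨k, Finset.mem_Icc.2 ⟨by omega, le_rfl⟩⟩
    · intro j hj
      rw [Finset.mem_Icc] at hj
      have h4 := hcon j (Finset.mem_Icc.2 ⟨by omega, hj.2⟩)
      rw [div_lt_iff₀ (by positivity)]
      exact h4.trans_le (mul_le_mul_of_nonneg_left (pow_le_pow_right₀ hP' (by omega)) (by positivity))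
  rw [Finset.sum_const, Nat.card_Icc, show k + 1 - (k - l + 1) = l by omega, nsmul_eq_mul] at h3
  have h5 := mul_lt_mul_of_pos_left h3 hC
  have h6 : C * ((l : ℝ) * (1 / (C * l))) = 1 := by field_simp
  rw [h6] at h5
  linarith

end Pool.Agent.V5helper53.ML
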